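import Pool.Agent.Helper10.RC.Cone

/-!
# Integral points on ramified covers of tori
-/

set_option autoImplicit false

namespace Pool.Agent.Results.MP_26d9ad_nt.CoversOfTori

open MvPolynomial NumberField

section definitions

variable {K : Type} [Field K] {n : ℕ}

/-- The polynomial `P(t₁^N, …, t_n^N; Y)` over the algebraic closure of `K`: it defines the
pull-back of the cover `P(u; Y) = 0` of the torus `G_m^n` by the isogeny `t ↦ t^N`. -/
noncomputable def pullback (P : Polynomial (MvPolynomial (Fin n) K)) (N : ℕ) :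
    Polynomial (MvPolynomial (Fin n) (AlgebraicClosure K)) :=
  P.map ((expand N : MvPolynomial (Fin n) (AlgebraicClosure K) →ₐ[AlgebraicClosure K]
    MvPolynomial (Fin n) (AlgebraicClosure K)).toRingHom.comp
      (MvPolynomial.map (algebraMap K (AlgebraicClosure K))))

/-- The absolute value `w` of the ring `C[t₁, …, t_n][Y]/(R)` extends the monomial absolute value
`f ↦ exp (max {ν·α : t^α occurs in f})` of `C[t₁, …, t_n]`. -/
def Extends {C : Type} [Field C] (R : Polynomial (MvPolynomial (Fin n) C)) (ν : Fin n → ℝ)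
    (w : AbsoluteValue (AdjoinRoot R) ℝ) : Prop :=
  ∀ f : MvPolynomial (Fin n) C, f ≠ 0 → ∃ α ∈ f.support,
    (∀ β ∈ f.support, ∑ j, ν j * β j ≤ ∑ j, ν j * α j) ∧
      w (AdjoinRoot.of R f) = Real.exp (∑ j, ν j * α j)

/-- The cover `P(u; Y) = 0` splits in the direction `ν`: for some `N ≥ 1` the monomial absolute
value in the direction `ν` has at least two extensions to the ring of the pull-back of the cover by
`t ↦ t^N`. -/
def SplitsAt (P : Polynomial (MvPolynomial (Fin n) K)) (ν : Fin n → ℝ) : Prop :=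
  ∃ N, 1 ≤ N ∧ ∃ w₁ w₂ : AbsoluteValue (AdjoinRoot (pullback P N)) ℝ,
    w₁ ≠ w₂ ∧ Extends (pullback P N) ν w₁ ∧ Extends (pullback P N) ν w₂

/-- The value `P(u; y)`. -/
noncomputable def value (P : Polynomial (MvPolynomial (Fin n) K)) (u : Fin n → K) (y : K) : K :=
  P.eval₂ (MvPolynomial.eval u) y

/-- `T` is an `S`-integral set of `K`-rational points of the cover `X : P(u; Y) = 0` of `G_m^n`: the
coordinates `u_j` are units outside `S`, up to constants `c v` equal to `1` for almost all `v`. -/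
def IntegralSet [NumberField K] (S : Finset (FinitePlace K))
    (P : Polynomial (MvPolynomial (Fin n) K)) (T : Set ((Fin n → K) × K)) : Prop :=
  (∀ p ∈ T, (∀ j, p.1 j ≠ 0) ∧ value P p.1 p.2 = 0) ∧
    ∃ c : FinitePlace K → ℝ, (∀ v, 0 < c v) ∧ {v | c v ≠ 1}.Finite ∧
      ∀ p ∈ T, ∀ v, v ∉ S → ∀ j, c v ≤ v (p.1 j) ∧ v (p.1 j) ≤ (c v)⁻¹

/-- The infinite places and the places in `S`. -/
abbrev Places [NumberField K] (S : Finset (FinitePlace K)) : Type := InfinitePlace K ⊕ {v // v ∈ S}

/-- The logarithm of the normalised absolute value of `x` at a place. -/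
noncomputable def logAt [NumberField K] (S : Finset (FinitePlace K)) : Places S → K → ℝ
  | Sum.inl w, x => w.mult * Real.log (w x)
  | Sum.inr v, x => Real.log (v.1 x)

/-- A morphism from `G_m` to `G_m^n × A^1`: `t ↦ (b₁ t^(a₁), …, b_n t^(a_n), f(t) / t^m)`. -/
structure Gm (K : Type) [Field K] (n : ℕ) where
  b : Fin n → K
  a : Fin n → ℤ
  f : Polynomial K
  m : ℕ

/-- The image of `t`. -/
noncomputable def Gm.pt (c : Gm K n) (t : K) : (Fin n → K) × K :=
  (fun j => c.b j * t ^ c.a j, c.f.eval t / t ^ c.m)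

/-- `c` is a non-constant morphism from `G_m` to the cover `P(u; Y) = 0`. -/
def Gm.IsOn (c : Gm K n) (P : Polynomial (MvPolynomial (Fin n) K)) : Prop :=
  (∀ j, c.b j ≠ 0) ∧ c.a ≠ 0 ∧ ∀ t : K, t ≠ 0 → value P (c.pt t).1 (c.pt t).2 = 0

end definitions

/-- **Integral points on ramified covers of tori.** Let `X → G_m^n` be the finite cover over the
number field `K` given by the monic polynomial `P(u; Y)`, and suppose that all its pull-backs by
`t ↦ t^N` are irreducible over the algebraic closure. Let `S` be a finite set of finite places, and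
let `C` be a closed cone of families `x = (x_w)` of vectors of `ℝ^n`, indexed by the places `w` in
`S` and the infinite places, such that for every `x ≠ 0` in `C` with `∑ x_w = 0` the cover splits in
the direction of some `x_w ≠ 0`. Then every `S`-integral set of points of `X` whose logarithms lie
in `C` is contained in the union of a finite set, of the images of finitely many non-constant
morphisms `G_m → X` and, if `n ≥ 3`, of the preimages of finitely many proper cosets `u^a = c` of
`G_m^n`. -/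
theorem result (K : Type) [Field K] [NumberField K] (S : Finset (FinitePlace K)) (n : ℕ)
    (hn : 1 ≤ n) (P : Polynomial (MvPolynomial (Fin n) K)) (hP : P.Monic)
    (hirr : ∀ N, 1 ≤ N → Irreducible (pullback P N))
    (C : Set (Places S → Fin n → ℝ)) (hC : IsClosed C)
    (hcone : ∀ x ∈ C, ∀ t : ℝ, 0 < t → t • x ∈ C)
    (hsplit : ∀ x ∈ C, ∑ w, x w = 0 → x ≠ 0 → ∃ w, x w ≠ 0 ∧ SplitsAt P (x w))
    (T : Set ((Fin n → K) × K)) (hT : IntegralSet S P T)
    (hTC : ∀ p ∈ T, (fun w j => logAt S w (p.1 j)) ∈ C) :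
    ∃ (F : Set ((Fin n → K) × K)) (M : Set (Gm K n)) (A : Set ((Fin n → ℤ) × K)),
      F.Finite ∧ M.Finite ∧ A.Finite ∧ (∀ c ∈ M, c.IsOn P) ∧ (∀ a ∈ A, 3 ≤ n ∧ a.1 ≠ 0) ∧
        ∀ p ∈ T, p ∈ F ∨ (∃ c ∈ M, ∃ t : K, t ≠ 0 ∧ p = c.pt t) ∨
          ∃ a ∈ A, ∏ j, p.1 j ^ a.1 j = a.2 := by
  obtain ⟨hT1, c, hc, hcf, hT2⟩ := hT
  have hB : {v | -Real.log (c v) ≠ 0}.Finite := by
    refine hcf.subset ?_
    intro v hv hv1
    apply hv
    rw [hv1, Real.log_one, neg_zero]
  have hlog : ∀ (u : Fin n → K), Pool.Agent.Helper10.RC.lvec S u =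
      fun w j => logAt S w (u j) := by
    intro u
    funext w j
    rcases w with w | v
    · rfl
    · rfl
  obtain ⟨F, 𝒞, A, hF, h𝒞, hA, h⟩ := Pool.Agent.Helper10.RC.strong_cone S
    (fun v => -Real.log (c v)) hB hn P hP hirr C hC hcone hsplit
  refine ⟨F, (fun d : (Fin n → K) × (Fin n → ℤ) × Polynomial K × ℕ =>
    Gm.mk d.1 d.2.1 d.2.2.1 d.2.2.2) '' (𝒞 : Set _), A, hF,
    𝒞.finite_toSet.image _, A.finite_toSet, ?_, ?_, ?_⟩
  · rintro _ ⟨d, hd, rfl⟩
    exact h𝒞 d hd
  · exact fun a ha => hA a ha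
  · intro p hp
    have hq : ∀ j, Pool.Agent.Helper10.RC.QU S (fun v => -Real.log (c v)) (p.1 j) := by
      intro j
      refine ⟨(hT1 p hp).1 j, fun v hv => ?_⟩
      obtain ⟨h1, h2⟩ := hT2 p hp v hv j
      have hpos : 0 < v (p.1 j) := FinitePlace.pos_iff.mpr ((hT1 p hp).1 j)
      have h3 := Real.log_le_log (hc v) h1
      have h4 := Real.log_le_log hpos h2
      rw [Real.log_inv] at h4
      rw [abs_le]
      constructor <;> linarith
    rcases h p hq (hT1 p hp).2 (by rw [hlog]; exact hTC p hp) with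
      h1 | ⟨d, hd, t, ht, h1, h2⟩ | h1
    · exact Or.inl h1
    · refine Or.inr (Or.inl ⟨_, ⟨d, hd, rfl⟩, t, ht, ?_⟩)
      exact Prod.ext (funext h1) h2
    · exact Or.inr (Or.inr h1)

end Pool.Agent.Results.MP_26d9ad_nt.CoversOfTori
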