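import Pool.Agent.Helper10.QRH.Assembly

/-!
# Completely multiplicative functions whose partial sums are smaller than `x ^ (-1/2 - δ)`

Either such a function exists, or the Riemann zeta function has infinitely many zeros to the right
of a line `Re s = 1/2 + δ`, and there are many short intervals with few primes.
-/

set_option autoImplicit false
open scoped Classical

namespace Pool.Agent.Helper10.Variants.RiemannDichotomy

/-- The number of `j < 2 ^ (k - e)` for which the interval `[2^k + j 2^e, 2^k + (j+1) 2^e)` contains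
fewer than `2 ^ e / (50 k)` primes. -/
noncomputable def numBad (k e : ℕ) : ℕ :=
  ((Finset.range (2 ^ (k - e))).filter (fun j =>
    ((((Finset.Ico (2 ^ k + j * 2 ^ e) (2 ^ k + (j + 1) * 2 ^ e)).filter Nat.Prime).card : ℕ) : ℝ)
      < (2 : ℝ) ^ e / (50 * k))).card

theorem result :
    ∃ δ : ℝ, 0 < δ ∧
      (({ρ : ℂ | riemannZeta ρ = 0 ∧ 1/2 + δ < ρ.re}.Infinite ∧
        ∀ K : ℕ, ∃ k : ℕ, K ≤ k ∧
          (2 : ℝ) ^ (200 * δ * k) < (numBad k ⌊(k : ℝ) * (1/2 - 2 * δ)⌋₊ : ℝ)) ∨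
      ∃ f : ℕ → ℝ, f 1 = 1 ∧ (∀ m n : ℕ, 0 < m → 0 < n → f (m * n) = f m * f n) ∧
        ∃ C : ℝ, ∀ N : ℕ, 0 < N →
          |∑ n ∈ Finset.Icc 1 N, f n| ≤ C * (N : ℝ) ^ (-(1/2 + δ))) :=
  Pool.Agent.Helper10.QRH.final Pool.Agent.Helper10.QRH.badCells_all
    Pool.Agent.Helper10.QRH.hTwo_all Pool.Agent.Helper10.QRH.partC_all

end Pool.Agent.Helper10.Variants.RiemannDichotomy
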