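import Pool.Agent.Helper10.LV.PartC

set_option autoImplicit false

namespace Pool.Agent.Helper10.Variants.RungeAuxiliary

open NumberField MvPolynomial Pool.Agent.Helper10.LV
open scoped LinearAlgebra.Projectivization

/-- Let `K` be a number field, `S` a finite set of finite places, `s` the number of infinite
places plus the number of places in `S`. Let `F 0, ..., F (r - 1)` be forms of degrees `d i` in
`n + 1` variables over `K`. Assume that the intersection of any `m + 1` of the hypersurfaces
`F i = 0` is contained in the union of the `μ`-fold thickenings of finitely many points `q` over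
the algebraic closure, each of which has degree at most `δ` over `K` or is isolated from the
rational points at all places considered. If `r > m * s` and all `d i ^ n > s * δ * μ ^ n`, then
no `(D, S)`-integral set of rational points of projective `n`-space is Zariski dense, where `D`
is the union of the hypersurfaces: it is contained in a hypersurface. -/
theorem result (K : Type*) [Field K] [NumberField K] (n r m μ δ : ℕ) (hμ : 1 ≤ μ) (hδ : 1 ≤ δ)
    (S : Finset (FinitePlace K))
    (F : Fin r → MvPolynomial (Fin (n + 1)) K) (d : Fin r → ℕ)
    (hF : ∀ i, (F i).IsHomogeneous (d i))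
    (Q : Finset (ℙ (AlgebraicClosure K) (Fin (n + 1) → AlgebraicClosure K)))
    (hQ : ∀ q ∈ Q, Module.finrank K (fieldOf q) ≤ δ ∨ Isolated S ∅ q)
    (hmeet : ∀ I : Finset (Fin r), I.card = m + 1 → MeetCond ∅ F I Q μ)
    (hr : m * (Fintype.card (InfinitePlace K) + S.card) < r)
    (hd : ∀ i, (Fintype.card (InfinitePlace K) + S.card) * δ * μ ^ n < d i ^ n)
    (T : Set (ℙ K (Fin (n + 1) → K))) (hT : IntegralSet S F d T) :
    ∃ (E : MvPolynomial (Fin (n + 1)) K) (e : ℕ), E ≠ 0 ∧ E.IsHomogeneous e ∧
      ∀ P ∈ T, eval P.rep E = 0 := by
  rw [← card_Om] at hr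
  simp only [← card_Om] at hd
  exact partA S ∅ (fun g hg => absurd hg (Set.notMem_empty g)) F d hF (Fintype.card_fin _) m μ δ
    hμ hδ hr Q hQ hmeet hd T (fun P _ g hg => absurd hg (Set.notMem_empty g)) hT

end Pool.Agent.Helper10.Variants.RungeAuxiliary
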